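import Pool.Agent.helper80.HM.SpecA

/-!
# Row hm:GRD
-/

set_option autoImplicit false

namespace Pool.Agent.HM

open Finset Pool.Agent.helper33.Mod

theorem GRD : GRD_stmt := by
  classical
  intro M k V T0 X r hT0 hX hlt
  let S : Finset (Finset (Fin M)) := V.powerset.filter fun T => T0 ⊆ T ∧
    (2 : ℝ) ^ (T.card - T0.card) * (1 / 2) ^ r * (KS k V T).card < (Xt X T).card
  have hS0 : T0 ∈ S := by
    rw [mem_filter, mem_powerset]
    refine ⟨hT0, Subset.refl _, ?_⟩
    have h1 : Xt X T0 = X := by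
      ext Q
      rw [mem_Xt]
      exact ⟨fun h => h.1, fun h => ⟨h, (mem_KS.1 (hX h)).2.2⟩⟩
    rw [Nat.sub_self, pow_zero, one_mul, h1]
    exact hlt
  obtain ⟨T, hTS, hmax⟩ := S.exists_max_image card ⟨T0, hS0⟩
  rw [mem_filter, mem_powerset] at hTS
  obtain ⟨hTV, hT0T, hP⟩ := hTS
  have hsub : (Xt X T).card ≤ (KS k V T).card := by
    refine card_le_card fun Q hQ => ?_
    rw [mem_Xt] at hQ
    have h1 := mem_KS.1 (hX hQ.1)
    exact mem_KS.2 ⟨h1.1, h1.2.1, hQ.2⟩
  have hsub' : ((Xt X T).card : ℝ) ≤ (KS k V T).card := by exact_mod_cast hsub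
  have hcard := card_le_card hT0T
  have hK0 : (0 : ℝ) ≤ (KS k V T).card := Nat.cast_nonneg _
  refine ⟨T, hT0T, hTV, ?_, ?_, ?_⟩
  · by_contra hcon
    have h1 : r ≤ T.card - T0.card := by omega
    have h2 : (1 : ℝ) ≤ (2 : ℝ) ^ (T.card - T0.card) * (1 / 2) ^ r := by
      have h3 : (2 : ℝ) ^ r ≤ 2 ^ (T.card - T0.card) := pow_le_pow_right₀ (by norm_num) h1
      have h4 : (2 : ℝ) ^ r * (1 / 2) ^ r = 1 := by
        rw [← mul_pow]
        norm_num
      have h5 : (0 : ℝ) ≤ (1 / 2) ^ r := by positivity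
      exact h4.symm.le.trans (mul_le_mul_of_nonneg_right h3 h5)
    have h5 : ((KS k V T).card : ℝ) ≤
        (2 : ℝ) ^ (T.card - T0.card) * (1 / 2) ^ r * (KS k V T).card :=
      le_mul_of_one_le_left hK0 h2
    linarith
  · refine lt_of_le_of_lt ?_ hP
    refine mul_le_mul_of_nonneg_right ?_ hK0
    exact le_mul_of_one_le_left (by positivity) (one_le_pow₀ (by norm_num))
  · intro v hv
    rw [mem_sdiff] at hv
    have hnot : insert v T ∉ S := by
      intro h
      have h1 := hmax _ h
      rw [card_insert_of_notMem hv.2] at h1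
      omega
    have h1 : ((Xt X (insert v T)).card : ℝ) ≤
        (2 : ℝ) ^ ((insert v T).card - T0.card) * (1 / 2) ^ r * (KS k V (insert v T)).card := by
      by_contra hcon
      rw [not_le] at hcon
      apply hnot
      rw [mem_filter, mem_powerset]
      exact ⟨insert_subset hv.1 hTV, hT0T.trans (subset_insert _ _), hcon⟩
    rw [card_insert_of_notMem hv.2] at h1
    have h2 : T.card + 1 - T0.card = T.card - T0.card + 1 := by omega
    rw [h2, pow_succ] at h1
    have hK1 : (0 : ℝ) ≤ (KS k V (insert v T)).card := Nat.cast_nonneg _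
    calc ((Xt X (insert v T)).card : ℝ) * (KS k V T).card
        ≤ (2 : ℝ) ^ (T.card - T0.card) * 2 * (1 / 2) ^ r * (KS k V (insert v T)).card *
          (KS k V T).card := mul_le_mul_of_nonneg_right h1 hK0
      _ = 2 * ((2 : ℝ) ^ (T.card - T0.card) * (1 / 2) ^ r * (KS k V T).card *
          (KS k V (insert v T)).card) := by ring
      _ ≤ 2 * ((Xt X T).card * (KS k V (insert v T)).card) := by
        refine mul_le_mul_of_nonneg_left ?_ (by norm_num)
        exact mul_le_mul_of_nonneg_right hP.le hK1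

end Pool.Agent.HM
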