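import Pool.Agent.helper80.HM.SpecC
import Pool.Agent.helper13.LN.HNP

/-!
# Row hm:HCR
-/

set_option autoImplicit false

namespace Pool.Agent.HM

open Finset Pool.Agent.helper38.Neg Pool.Agent.helper55.NT
open Pool.Agent.LN (HC)

theorem HCR (hHCM : HCM_stmt) : HCR_stmt := by
  intro a t ha1 ha hall
  obtain ⟨c, hc⟩ := ha
  obtain ⟨hNP, hmon⟩ := Pool.Agent.LN.HNP
  obtain ⟨k, hk⟩ := hall HC hNP hmon
  obtain ⟨C0, hC0⟩ := hHCM (k + c + 1)
  refine ⟨C0 + 2 ^ (k + c), fun n hn => ?_⟩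
  obtain ⟨s, hs, C, o, hM, hC⟩ := hk n
  have hL1 : 1 ≤ lg n := lg_pos n
  have hL : k + c ≤ lg n := by
    unfold lg
    exact Nat.le_log_of_pow_le (by norm_num) (by omega)
  have h1 : a n ≤ lg n ^ (k + c + 1) := by
    calc a n ≤ c * lg n ^ c := hc n
      _ ≤ lg n * lg n ^ c := Nat.mul_le_mul_right _ (by omega)
      _ = lg n ^ (c + 1) := by rw [pow_succ']
      _ ≤ lg n ^ (k + c + 1) := Nat.pow_le_pow_right hL1 (by omega)
  have h2 : s ≤ 2 ^ (lg n ^ (k + c + 1)) := by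
    refine hs.trans (Nat.pow_le_pow_right (by norm_num) ?_)
    calc k * lg n ^ k ≤ lg n * lg n ^ k := Nat.mul_le_mul_right _ (by omega)
      _ = lg n ^ (k + 1) := by rw [pow_succ']
      _ ≤ lg n ^ (k + c + 1) := Nat.pow_le_pow_right hL1 (by omega)
  have h3 := hC0 n ((Nat.le_add_right _ _).trans hn) (a n) (t n) s C o (ha1 n) h1 h2 hM hC
  refine h3.trans ?_
  exact Nat.mul_le_mul_right _ (Nat.mul_le_mul_right _ (Nat.le_add_right _ _))

end Pool.Agent.HM
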