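import Pool.Agent.helper80.HM.SpecA

/-!
# Row hm:KSZ
-/

set_option autoImplicit false

namespace Pool.Agent.HM

open Finset Pool.Agent.helper33.Mod

theorem KSZ (hKSC : KSC_stmt) : KSZ_stmt := by
  intro M k V T Z hT hZ hd hTk hkV
  by_cases h0 : Z = ∅
  · subst h0
    rw [union_empty, card_empty, pow_zero, one_mul]
  have hzpos : 0 < Z.card := card_pos.mpr (nonempty_iff_ne_empty.mpr h0)
  have hcard : (T ∪ Z).card = T.card + Z.card := card_union_of_disjoint hd
  by_cases hle : T.card + Z.card ≤ k
  · have e1 := hKSC V (T ∪ Z) (union_subset hT hZ) (by rw [hcard]; exact hle) (k := k)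
    have e2 := hKSC V T hT hTk (k := k)
    rw [e1, e2, hcard]
    have hM : 0 < V.card - T.card := by omega
    have h1 := choose_bound (M := V.card - T.card) (k := k - T.card) (by omega) hM Z.card (by omega)
    have e3 : V.card - (T.card + Z.card) = V.card - T.card - Z.card := by omega
    have e4 : k - (T.card + Z.card) = k - T.card - Z.card := by omega
    rw [e3, e4]
    refine h1.trans ?_
    refine mul_le_mul_of_nonneg_right ?_ (Nat.cast_nonneg _)
    refine pow_le_pow_left₀ (by positivity) ?_ _
    have hV : (0 : ℝ) < V.card := by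
      have : 0 < V.card := by omega
      exact_mod_cast this
    have hM' : (0 : ℝ) < ((V.card - T.card : ℕ) : ℝ) := by exact_mod_cast hM
    rw [div_le_div_iff₀ hM' hV, Nat.cast_sub hTk, Nat.cast_sub (by omega)]
    have h2 : (k : ℝ) ≤ V.card := by exact_mod_cast hkV
    have h3 : (0 : ℝ) ≤ T.card := Nat.cast_nonneg _
    nlinarith
  · have h1 : KS k V (T ∪ Z) = ∅ := by
      rw [eq_empty_iff_forall_notMem]
      intro Q hQ
      obtain ⟨-, h2, h3⟩ := mem_KS.1 hQ
      have h4 := card_le_card h3
      omega
    rw [h1, card_empty, Nat.cast_zero]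
    positivity

end Pool.Agent.HM
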