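import Pool.Agent.helper80.HM.SpecB

/-!
# Row hm:MKB
-/

set_option autoImplicit false

namespace Pool.Agent.HM

open Finset Pool.Agent.helper33.Mod

theorem MKB (hKSZ : KSZ_stmt) : MKB_stmt := by
  classical
  intro M k l L N V T B hB hT h2T hTk hkV hVpos h16
  set I : Finset ℕ := Finset.Ico ((l + 2) / 2) (L + 1) with hI
  have hV : (0 : ℝ) < V.card := by exact_mod_cast hVpos
  have hsub : (flt (KS k V T) fun Q => ∃ Z ⊆ Q \ T, Z ∈ Mn B T Z.card ∧ l < T.card + Z.card ∧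
      T.card + Z.card ≤ L) ⊆ (I.filter fun b => T.card + b ≤ L).biUnion fun b =>
        ((Mn B T b).filter fun Z => Z ⊆ V).biUnion fun Z => KS k V (T ∪ Z) := by
    intro Q hQ
    rw [mem_flt] at hQ
    obtain ⟨hQ1, Z, hZ, hZM, hl, hL⟩ := hQ
    obtain ⟨q1, q2, q3⟩ := mem_KS.1 hQ1
    rw [mem_biUnion]
    refine ⟨Z.card, ?_, ?_⟩
    · rw [mem_filter, hI, mem_Ico]
      refine ⟨⟨?_, ?_⟩, hL⟩ <;> omega
    · rw [mem_biUnion]
      refine ⟨Z, ?_, ?_⟩
      · rw [mem_filter]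
        exact ⟨hZM, (hZ.trans sdiff_subset).trans q1⟩
      · exact mem_KS.2 ⟨q1, q2, union_subset q3 (hZ.trans sdiff_subset)⟩
  have hK0 : (0 : ℝ) ≤ (KS k V T).card := Nat.cast_nonneg _
  have hx : (L : ℝ) * N * (k / V.card) ≤ 1 / 16 := by
    rw [← mul_div_assoc, div_le_div_iff₀ hV (by norm_num)]
    have h1 : ((16 * L * N * k : ℕ) : ℝ) ≤ V.card := by exact_mod_cast h16
    push_cast at h1
    linarith
  have hx0 : (0 : ℝ) ≤ (L : ℝ) * N * (k / V.card) := by positivity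
  have hterm : ∀ b ∈ I.filter fun b => T.card + b ≤ L,
      ((((Mn B T b).filter fun Z => Z ⊆ V).biUnion fun Z => KS k V (T ∪ Z)).card : ℝ) ≤
        (1 / 16) ^ b * (KS k V T).card := by
    intro b hb
    rw [mem_filter] at hb
    have h1 : ((((Mn B T b).filter fun Z => Z ⊆ V).biUnion fun Z => KS k V (T ∪ Z)).card : ℝ) ≤
        ∑ Z ∈ (Mn B T b).filter fun Z => Z ⊆ V, ((KS k V (T ∪ Z)).card : ℝ) := by
      exact_mod_cast card_biUnion_le
    have h2 : ∀ Z ∈ (Mn B T b).filter fun Z => Z ⊆ V, ((KS k V (T ∪ Z)).card : ℝ) ≤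
        ((k : ℝ) / V.card) ^ b * (KS k V T).card := by
      intro Z hZ
      rw [mem_filter, mem_Mn] at hZ
      obtain ⟨⟨z1, z2, -, -⟩, z3⟩ := hZ
      have h3 := hKSZ V T Z hT z3 z2 hTk hkV
      rw [z1] at h3
      exact h3
    have h3 := Finset.sum_le_card_nsmul _ _ _ h2
    rw [nsmul_eq_mul] at h3
    have h4 : (((Mn B T b).filter fun Z => Z ⊆ V).card : ℝ) ≤ ((L : ℝ) * N) ^ b := by
      have h5 := (card_filter_le (Mn B T b) fun Z => Z ⊆ V).trans (card_Mn hB b T hb.2)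
      exact_mod_cast h5
    calc _ ≤ _ := h1
      _ ≤ _ := h3
      _ ≤ ((L : ℝ) * N) ^ b * (((k : ℝ) / V.card) ^ b * (KS k V T).card) :=
        mul_le_mul_of_nonneg_right h4 (by positivity)
      _ = ((L : ℝ) * N * (k / V.card)) ^ b * (KS k V T).card := by
        rw [mul_pow ((L : ℝ) * N)]
        ring
      _ ≤ (1 / 16) ^ b * (KS k V T).card :=
        mul_le_mul_of_nonneg_right (pow_le_pow_left₀ hx0 hx b) hK0
  have hsum : ∑ b ∈ I, ((1 : ℝ) / 16) ^ b ≤ (1 / 4) ^ l := by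
    have h1 := geom_sum_Ico_le_of_lt_one (x := (1 : ℝ) / 16) (m := (l + 2) / 2) (n := L + 1)
      (by norm_num) (by norm_num)
    refine h1.trans ?_
    have h2 : ((1 : ℝ) / 16) ^ ((l + 2) / 2) ≤ (1 / 4) ^ (l + 1) := by
      have h3 : ((1 : ℝ) / 16) ^ ((l + 2) / 2) = (1 / 4) ^ (2 * ((l + 2) / 2)) := by
        rw [pow_mul]
        norm_num
      rw [h3]
      exact pow_le_pow_of_le_one (by norm_num) (by norm_num) (by omega)
    rw [pow_succ] at h2
    have h4 : (0 : ℝ) < (1 / 4) ^ l := by positivity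
    rw [div_le_iff₀ (by norm_num)]
    nlinarith
  calc ((flt (KS k V T) fun Q => ∃ Z ⊆ Q \ T, Z ∈ Mn B T Z.card ∧ l < T.card + Z.card ∧
      T.card + Z.card ≤ L).card : ℝ)
      ≤ (((I.filter fun b => T.card + b ≤ L).biUnion fun b =>
        ((Mn B T b).filter fun Z => Z ⊆ V).biUnion fun Z => KS k V (T ∪ Z)).card : ℝ) := by
        exact_mod_cast card_le_card hsub
    _ ≤ ∑ b ∈ I.filter (fun b => T.card + b ≤ L),
        ((((Mn B T b).filter fun Z => Z ⊆ V).biUnion fun Z => KS k V (T ∪ Z)).card : ℝ) := by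
        exact_mod_cast card_biUnion_le
    _ ≤ ∑ b ∈ I.filter (fun b => T.card + b ≤ L), ((1 : ℝ) / 16) ^ b * (KS k V T).card :=
        Finset.sum_le_sum hterm
    _ ≤ ∑ b ∈ I, ((1 : ℝ) / 16) ^ b * (KS k V T).card :=
        Finset.sum_le_sum_of_subset_of_nonneg (filter_subset _ _) fun b _ _ => by positivity
    _ = (∑ b ∈ I, ((1 : ℝ) / 16) ^ b) * (KS k V T).card := by rw [Finset.sum_mul]
    _ ≤ (1 / 4) ^ l * (KS k V T).card := mul_le_mul_of_nonneg_right hsum hK0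

end Pool.Agent.HM
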